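import Pool.Agent.Lib.MP_b5021c_nt.IfaceK1

/-!
# MP_b5021c_nt, chapter K, row BPO

`|Y| ≤ |Q|` on the unit circle gives `BP`.
-/

namespace Pool.Agent.MP_b5021c_nt.BPO

open Polynomial Filter Topology

/-- `Q` has no zeros on the unit circle. -/
theorem pv_ne_zero {Q : ℤ[X]} {θ : ℝ} (hQ : OneZero Q θ) {z : ℂ} (hz : ‖z‖ = 1) : pv Q z ≠ 0 := by
  obtain ⟨h1, -, g, hg, hg0⟩ := hQ
  have h2 : pv Q z = (1 - (θ : ℂ) * z) * g.eval z := by
    have h3 : (Q.map (Int.castRingHom ℂ)).eval z = pv Q z := by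
      rw [pv, aeval_def, eval_map]
      rfl
    rw [← h3, hg]
    simp
  rw [h2]
  refine mul_ne_zero ?_ (hg0 z hz.le)
  intro h4
  have h5 : (θ : ℂ) * z = 1 := by
    rw [sub_eq_zero] at h4
    exact h4.symm
  have h6 : ‖(θ : ℂ) * z‖ = 1 := by
    rw [h5]
    simp
  rw [norm_mul, hz, mul_one, Complex.norm_real, Real.norm_eq_abs, abs_of_pos (by linarith)] at h6
  linarith

/-- Row BPO. -/
theorem bpo (hD : DecS) (hP : ParS) : BpoS := by
  intro Q Y θ a hQ ha hYQ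
  obtain ⟨c, h, h1, h2, h3⟩ := hD Q Y θ a hQ ha
  have hθ : 1 < θ := hQ.1
  have hsq : Summable (fun j => h j ^ 2) := by
    have h4 : Tendsto (fun j => |h j|) atTop (𝓝 0) := h2.tendsto_atTop_zero
    have h5 : ∀ᶠ j in atTop, |h j| < 1 := h4.eventually (gt_mem_nhds one_pos)
    obtain ⟨N, hN⟩ := eventually_atTop.1 h5
    refine Summable.of_norm_bounded_eventually_nat (g := fun j => |h j|) h2 ?_
    refine eventually_atTop.2 ⟨N, fun j hj => ?_⟩
    rw [Real.norm_eq_abs, abs_pow]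
    have h6 := hN j hj
    nlinarith [abs_nonneg (h j)]
  refine ⟨c, h, hθ, h1, hsq, ?_⟩
  have h4 := hP c θ h hθ h2
  rw [← h4]
  have hcirc : ∀ x : ℝ, ‖Complex.exp (x * Complex.I)‖ = 1 := fun x => Complex.norm_exp_ofReal_mul_I x
  have hle : ∀ x : ℝ, ‖(c : ℂ) / (1 - θ * Complex.exp (x * Complex.I)) +
      ∑' j, (h j : ℂ) * Complex.exp (x * Complex.I) ^ j‖ ^ 2 ≤ 1 := by
    intro x
    have h5 := h3 _ (hcirc x)
    have h6 := hYQ _ (hcirc x)
    have h7 : 0 < ‖pv Q (Complex.exp (x * Complex.I))‖ := norm_pos_iff.2 (pv_ne_zero hQ (hcirc x))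
    rw [h5, norm_mul] at h6
    have h8 : ‖(c : ℂ) / (1 - θ * Complex.exp (x * Complex.I)) +
      ∑' j, (h j : ℂ) * Complex.exp (x * Complex.I) ^ j‖ ≤ 1 := by
      by_contra h9
      rw [not_le] at h9
      nlinarith
    have h10 := norm_nonneg ((c : ℂ) / (1 - θ * Complex.exp (x * Complex.I)) +
      ∑' j, (h j : ℂ) * Complex.exp (x * Complex.I) ^ j)
    nlinarith
  have hpi : (0 : ℝ) < 2 * Real.pi := by positivity
  have hint : ∫ x in (0 : ℝ)..(2 * Real.pi),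
      ‖(c : ℂ) / (1 - θ * Complex.exp (x * Complex.I)) + ∑' j, (h j : ℂ) * Complex.exp (x * Complex.I) ^ j‖ ^ 2
      ≤ 2 * Real.pi := by
    have h5 : ‖∫ x in (0 : ℝ)..(2 * Real.pi),
      ‖(c : ℂ) / (1 - θ * Complex.exp (x * Complex.I)) + ∑' j, (h j : ℂ) * Complex.exp (x * Complex.I) ^ j‖ ^ 2‖
      ≤ 1 * |2 * Real.pi - 0| := by
      refine intervalIntegral.norm_integral_le_of_norm_le_const fun x _ => ?_
      rw [Real.norm_eq_abs, abs_of_nonneg (by positivity)]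
      exact hle x
    rw [sub_zero, abs_of_pos hpi, one_mul] at h5
    exact (le_abs_self _).trans h5
  have h11 : (2 * Real.pi)⁻¹ * (2 * Real.pi) = 1 := inv_mul_cancel₀ hpi.ne'
  calc (2 * Real.pi)⁻¹ * ∫ x in (0 : ℝ)..(2 * Real.pi),
      ‖(c : ℂ) / (1 - θ * Complex.exp (x * Complex.I)) + ∑' j, (h j : ℂ) * Complex.exp (x * Complex.I) ^ j‖ ^ 2
      ≤ (2 * Real.pi)⁻¹ * (2 * Real.pi) := by
        exact mul_le_mul_of_nonneg_left hint (by positivity)
    _ = 1 := h11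

end Pool.Agent.MP_b5021c_nt.BPO
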